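import Pool.Agent.MWGN.StmtsA
import Pool.Agent.Helper42_MWGN.SA1

/-!
# MWGN row SA2 (MP_23468a_al)
-/

set_option autoImplicit false

namespace Pool.Agent.MWGN.H50

open Pool.Agent.Helper14_MV Pool.Agent.Helper2_MV
open Pool.Agent.MWK (pre)
open Pool.Agent.MWGN.H42 (bd_succ bd_count B1 b1_L b1_C b1_o b2_o b2_4 hd TA TB w_eq fm_zero t1_count
  t2_count ta_o tb_o t1_L t1_S)

/-- level 2 -/
def B2 (m k : ℕ) : List ℕ := bd (sg (N2 m).L) (sg (N2 m).C) k

theorem b2_succ (m k c : ℕ) : (B2 m (k + 1)).count c = (B2 m k).count c +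
    ((if 9 + 6 * k = c then 1 else 0) +
      ((if 10 + 6 * k = c then 1 else 0) + (if 10 + 6 * k = c then 1 else 0))) := bd_count _ _ k c

theorem b2_zero (m c : ℕ) : (B2 m 0).count c = 0 := by simp [B2, bd]

theorem b2_L (m k j : ℕ) : (B2 m k).count (9 + 6 * j) = if j < k then 1 else 0 := by
  induction k with
  | zero => simp [b2_zero]
  | succ k ih =>
    rw [b2_succ, ih]
    split_ifs <;> omega

theorem b2_C (m k j : ℕ) : (B2 m k).count (10 + 6 * j) = if j < k then 2 else 0 := by
  induction k with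
  | zero => simp [b2_zero]
  | succ k ih =>
    rw [b2_succ, ih]
    split_ifs <;> omega

theorem fm_k (F : ℕ → List ℕ) (c i0 k : ℕ) : ∀ τ : List ℕ,
    (∀ i ∈ τ, (F i).count c = if i = i0 then k else 0) →
      (τ.flatMap F).count c = k * τ.count i0 := by
  intro τ
  induction τ with
  | nil => intro _; simp
  | cons a l ih =>
    intro h
    rw [List.flatMap_cons, List.count_append, ih (fun i hi => h i (List.mem_cons_of_mem _ hi)),
      h a (by simp), List.count_cons]
    by_cases ha : a = i0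
    · subst ha
      simp
      ring
    · simp [ha]

theorem t1_B (m i : ℕ) (c : ℕ) : (N1.S i :: T1 m i).count c =
    (if 5 + 6 * i = c then 1 else 0) + (if i = m then
      ((if 6 + 6 * m = c then 1 else 0) + ((B2 m (m + 1)).count c +
        ((if 9 + 6 * (m + 1) = c then 1 else 0) + (if 6 + 6 * (m + 1) = c then 1 else 0))))
      else (if 6 + 6 * i = c then 1 else 0)) := t1_count m i c

/-- light letters of level 2 in the first tails -/
theorem t1_L2 (m i j : ℕ) (hj : j ≤ m + 1) :
    (N1.S i :: T1 m i).count (9 + 6 * j) = if i = m then 1 else 0 := by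
  rw [t1_B, b2_L]
  split_ifs <;> omega

theorem t1_C2 (m i j : ℕ) (hj : j < m + 1) :
    (N1.S i :: T1 m i).count (10 + 6 * j) = if i = m then 2 else 0 := by
  rw [t1_B, b2_C]
  split_ifs <;> omega

theorem t1_S2 (m i j : ℕ) : (N1.S i :: T1 m i).count (8 + 6 * j) = 0 := by
  rw [t1_B]
  have h : (B2 m (m + 1)).count (8 + 6 * j) = 0 := b2_o m _ _ (by omega)
  rw [h]
  split_ifs <;> omega

theorem t2_L2 (m i j : ℕ) (hi : i ≤ m) (hj : j ≤ m + 1) :
    ((N2 m).S i :: T2 m i).count (9 + 6 * j) = if i = min j m then 1 else 0 := by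
  rw [t2_count]
  rcases Nat.lt_or_ge j m with h | h
  · rw [Nat.min_eq_left (by omega)]
    split_ifs <;> omega
  · rw [Nat.min_eq_right h]
    split_ifs <;> omega

theorem t2_S2 (m i j : ℕ) :
    ((N2 m).S i :: T2 m i).count (8 + 6 * j) = if i = j then 1 else 0 := by
  rw [t2_count]
  split_ifs <;> omega

theorem sa2 (h1 : PrfStmt) (h2 : PrbStmt) : Sa2Stmt := by
  intro τ m ht
  have hτ : ∀ i, i ≤ m → τ.count i = 1 := fun i hi =>
    List.count_eq_one_of_mem ht.1 ((ht.2 i).2 hi)
  have hle : ∀ i ∈ τ, i ≤ m := fun i hi => (ht.2 i).1 hi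
  have hmm : m ∈ τ := (ht.2 m).2 (le_refl m)
  set w := w0 τ m true true with hw
  have we : w = hd m ++ 3 :: (TA τ m ++ 4 :: TB τ m) := w_eq τ m
  have wc : ∀ c, w.count c = (hd m).count c + ((TA τ m).count c + (TB τ m).count c +
      ((if 3 = c then 1 else 0) + (if 4 = c then 1 else 0))) := by
    intro c
    rw [we, List.count_append, List.count_cons, List.count_append, List.count_cons]
    simp only [beq_iff_eq]
    omega
  have hc : ∀ c, (hd m).count c = (B1 m).count c + ((if 0 = c then 2 else 0) +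
      ((if 1 = c then 2 else 0) + ((if 2 = c then 1 else 0) +
      ((if 6 + 6 * m = c then 1 else 0) + (if 6 + 6 * (m + 1) = c then 1 else 0))))) := by
    intro c
    unfold hd
    rw [List.count_append, List.count_append]
    simp only [List.count_cons, List.count_nil, beq_iff_eq]
    split_ifs <;> omega
  have hdL : ∀ i ≤ m + 1, (hd m).count (6 + 6 * i) = 1 := by
    intro i hi
    rw [hc, b1_L]
    split_ifs <;> omega
  have hdS : ∀ i, (hd m).count (5 + 6 * i) = 0 := by
    intro i
    rw [hc, b1_o m _ (by omega)]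
    split_ifs <;> omega
  have hd2 : ∀ c, (c = 4 ∨ (6 ≤ c ∧ c % 6 ≠ 0 ∧ c % 6 ≠ 1)) → (hd m).count c = 0 := by
    intro c hcc
    rw [hc, b1_o m _ (by omega)]
    split_ifs <;> omega
  -- first tails
  have taL : ∀ i ≤ m + 1, (TA τ m).count (6 + 6 * i) = 1 := by
    intro i hi
    unfold TA
    rw [fm_k _ _ (min i m) 1 τ (fun k hk => t1_L m k i (hle k hk) hi), hτ _ (by omega)]
  have taS : ∀ i ≤ m, (TA τ m).count (5 + 6 * i) = 1 := by
    intro i hi
    unfold TA
    rw [fm_k _ _ i 1 τ (fun k _ => t1_S m k i), hτ _ hi]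
  have taL2 : ∀ i ≤ m + 1, (TA τ m).count (9 + 6 * i) = 1 := by
    intro i hi
    unfold TA
    rw [fm_k _ _ m 1 τ (fun k _ => t1_L2 m k i hi), hτ _ (by omega)]
  have taC2 : ∀ i < m + 1, (TA τ m).count (10 + 6 * i) = 2 := by
    intro i hi
    unfold TA
    rw [fm_k _ _ m 2 τ (fun k _ => t1_C2 m k i hi), hτ _ (by omega)]
  have taS2 : ∀ i, (TA τ m).count (8 + 6 * i) = 0 := by
    intro i
    unfold TA
    exact fm_zero _ _ _ (fun k _ => t1_S2 m k i)
  -- second tails
  have tbL2 : ∀ i ≤ m + 1, (TB τ m).count (9 + 6 * i) = 1 := by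
    intro i hi
    unfold TB
    rw [fm_k _ _ (min i m) 1 τ (fun k hk => t2_L2 m k i (hle k hk) hi), hτ _ (by omega)]
  have tbS2 : ∀ i ≤ m, (TB τ m).count (8 + 6 * i) = 1 := by
    intro i hi
    unfold TB
    rw [fm_k _ _ i 1 τ (fun k _ => t2_S2 m k i), hτ _ hi]
  -- counts in w
  have wSm : w.count (5 + 6 * m) = 1 := by
    rw [wc, hdS, taS m (le_refl m), tb_o _ _ _ (by omega)]
    split_ifs <;> omega
  have w4 : w.count 4 = 1 := by
    rw [wc, hd2 4 (Or.inl rfl), ta_o _ _ _ (by omega), tb_o _ _ _ (by omega)]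
    simp
  have wL : ∀ i ≤ m + 1, w.count (6 + 6 * i) = 2 := by
    intro i hi
    rw [wc, hdL i hi, taL i hi, tb_o _ _ _ (by omega)]
    split_ifs <;> omega
  have wL2 : ∀ i ≤ m + 1, w.count (9 + 6 * i) = 2 := by
    intro i hi
    rw [wc, hd2 _ (by omega), taL2 i hi, tbL2 i hi]
    split_ifs <;> omega
  have wC2 : ∀ i < m + 1, w.count (10 + 6 * i) = 2 := by
    intro i hi
    rw [wc, hd2 _ (by omega), taC2 i hi, tb_o _ _ _ (by omega)]
    split_ifs <;> omega
  have wS2 : ∀ i ≤ m, w.count (8 + 6 * i) = 1 := by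
    intro i hi
    rw [wc, hd2 _ (by omega), taS2 i, tbS2 i hi]
    split_ifs <;> omega
  -- prefixes
  have p4 : pre w 4 = hd m ++ 3 :: TA τ m := by
    have e1 : w = (hd m ++ 3 :: TA τ m) ++ 4 :: TB τ m := by
      rw [we]
      simp
    rw [e1]
    apply MWK.pre_split
    rw [List.mem_append, not_or, List.mem_cons, not_or]
    exact ⟨List.count_eq_zero.1 (hd2 4 (Or.inl rfl)), by omega,
      List.count_eq_zero.1 (ta_o _ _ _ (by omega))⟩
  have c4 : ∀ c, c ≠ 3 → nn w c 4 = (hd m).count c + (TA τ m).count c := by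
    intro c h3
    unfold nn
    rw [p4, List.count_append, List.count_cons]
    have : (3 == c) = false := by
      simp only [beq_eq_false_iff_ne]
      omega
    rw [this]
    simp
  -- the part in front of `S m`
  have hsp : TA τ m = (pre τ m).flatMap (fun i => N1.S i :: T1 m i) ++
      ((5 + 6 * m) :: (6 + 6 * m) :: (B2 m (m + 1) ++ ((9 + 6 * (m + 1)) ::
        (6 + 6 * (m + 1)) :: [])) ++ (τ.drop ((pre τ m).length + 1)).flatMap
          (fun i => N1.S i :: T1 m i)) := by
    obtain ⟨B, hB⟩ := MWK.mem_split hmm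
    have hd' : τ.drop ((pre τ m).length + 1) = B := by
      have e : pre τ m ++ m :: B = (pre τ m ++ [m]) ++ B := by simp
      conv_lhs => rw [hB, e]
      rw [List.drop_append_of_le_length (by
        rw [← e, ← hB]
        simp)]
      rw [← e, ← hB]
      simp
    rw [hd']
    unfold TA
    conv_lhs => rw [hB]
    rw [List.flatMap_append, List.flatMap_cons]
    have hT : N1.S m :: T1 m m = (5 + 6 * m) :: (6 + 6 * m) :: (B2 m (m + 1) ++
        ((9 + 6 * (m + 1)) :: (6 + 6 * (m + 1)) :: [])) := by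
      unfold T1
      rw [if_pos rfl]
      rfl
    rw [hT]
  set P : List ℕ := hd m ++ 3 :: (pre τ m).flatMap (fun i => N1.S i :: T1 m i) with hP
  set R : List ℕ := (τ.drop ((pre τ m).length + 1)).flatMap (fun i => N1.S i :: T1 m i) ++
    4 :: TB τ m with hR
  have wP : w = P ++ (5 + 6 * m) :: (6 + 6 * m) :: (B2 m (m + 1) ++ (9 + 6 * (m + 1)) ::
      (6 + 6 * (m + 1)) :: R) := by
    rw [we, hsp, hP, hR]
    simp
  have hmem : ∀ j, ∀ k ∈ pre τ j, k ≤ m := fun j k hk => hle k (MWK.mem_of_mem_pre hk)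
  have hnm : (pre τ m).count m = 0 := List.count_eq_zero.2 (MWK.not_mem_pre τ m)
  have cP : ∀ c, c ≠ 3 → P.count c =
      (hd m).count c + ((pre τ m).flatMap (fun i => N1.S i :: T1 m i)).count c := by
    intro c h3
    rw [hP, List.count_append, List.count_cons]
    have : (3 == c) = false := by
      simp only [beq_eq_false_iff_ne]
      omega
    rw [this]
    simp
  have PS : P.count (5 + 6 * m) = 0 := by
    rw [cP _ (by omega), hdS, fm_k _ _ m 1 _ (fun k _ => t1_S m k m), hnm]
  have PL : P.count (6 + 6 * m) = 1 := by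
    rw [cP _ (by omega), hdL m (by omega),
      fm_k _ _ (min m m) 1 _ (fun k hk => t1_L m k m (hmem m k hk) (by omega)), Nat.min_self, hnm]
  have PL1 : P.count (6 + 6 * (m + 1)) = 1 := by
    rw [cP _ (by omega), hdL (m + 1) (by omega),
      fm_k _ _ (min (m + 1) m) 1 _ (fun k hk => t1_L m k (m + 1) (hmem m k hk) (by omega)),
      Nat.min_eq_right (by omega), hnm]
  have P4 : P.count 4 = 0 := by
    rw [cP _ (by omega), hd2 4 (Or.inl rfl)]
    have : ((pre τ m).flatMap (fun i => N1.S i :: T1 m i)).count 4 = 0 :=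
      ta_o (pre τ m) m 4 (by omega)
    rw [this]
  have PL2 : ∀ i ≤ m + 1, P.count (9 + 6 * i) = 0 := by
    intro i hi
    rw [cP _ (by omega), hd2 _ (by omega), fm_k _ _ m 1 _ (fun k _ => t1_L2 m k i hi), hnm]
  have PC2 : ∀ i < m + 1, P.count (10 + 6 * i) = 0 := by
    intro i hi
    rw [cP _ (by omega), hd2 _ (by omega), fm_k _ _ m 2 _ (fun k _ => t1_C2 m k i hi), hnm]
  have pSm : pre w (5 + 6 * m) = P := by
    rw [wP]
    exact MWK.pre_split (List.count_eq_zero.1 PS) _
  have pL2 : ∀ i ≤ m + 1, pre w (9 + 6 * i) = (P ++ [5 + 6 * m, 6 + 6 * m]) ++ B2 m i := by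
    intro i hi
    have e1 : w = (P ++ [5 + 6 * m, 6 + 6 * m]) ++ (B2 m (m + 1) ++ (9 + 6 * (m + 1)) ::
        (6 + 6 * (m + 1)) :: R) := by
      rw [wP]
      simp
    have hn : 9 + 6 * i ∉ P ++ [5 + 6 * m, 6 + 6 * m] := by
      rw [List.mem_append, not_or]
      refine ⟨List.count_eq_zero.1 (PL2 i hi), ?_⟩
      simp
      omega
    rw [e1, MWK.pre_append hn]
    congr 1
    rcases Nat.lt_or_ge i (m + 1) with h | h
    · have e2 := h2 (N2 m).L (N2 m).C (m + 1) i h (by
        intro i _ i' _ h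
        have : 9 + 6 * i = 9 + 6 * i' := h
        omega) (by
        intro i _ i' _ h
        have : 10 + 6 * i = 9 + 6 * i' := h
        omega) ((9 + 6 * (m + 1)) :: (6 + 6 * (m + 1)) :: R)
      exact e2
    · have hi' : i = m + 1 := by omega
      subst hi'
      apply MWK.pre_split
      rw [← List.count_eq_zero, b2_L]
      simp
  have nL2 : ∀ i ≤ m + 1, ∀ c, c ≠ 5 + 6 * m → nn w c (9 + 6 * i) =
      P.count c + ((if 6 + 6 * m = c then 1 else 0) + (B2 m i).count c) := by
    intro i hi c hc'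
    unfold nn
    rw [pL2 i hi, List.count_append, List.count_append, List.count_cons, List.count_cons,
      List.count_nil]
    have : (5 + 6 * m == c) = false := by
      simp only [beq_eq_false_iff_ne]
      omega
    rw [this]
    simp only [beq_iff_eq]
    simp
    omega
  have pS2 : ∀ j ≤ m, pre w (8 + 6 * j) = hd m ++ 3 :: (TA τ m ++ 4 ::
      (pre τ j).flatMap (fun i => (N2 m).S i :: T2 m i)) := by
    intro j hj
    have e1 : w = (hd m ++ 3 :: (TA τ m ++ [4])) ++ (TB τ m ++ []) := by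
      rw [we]
      simp
    have hn : 8 + 6 * j ∉ hd m ++ 3 :: (TA τ m ++ [4]) := by
      rw [List.mem_append, not_or, List.mem_cons, not_or, List.mem_append, not_or]
      refine ⟨List.count_eq_zero.1 (hd2 _ (by omega)), by omega,
        List.count_eq_zero.1 (taS2 j), ?_⟩
      simp
      omega
    rw [e1, MWK.pre_append hn]
    have e2 := h1 (N2 m).S (T2 m) τ j ((ht.2 j).2 hj) (by
      intro i _ hij h
      have : 8 + 6 * i = 8 + 6 * j := h
      omega) (by
      intro i _ hij h
      have h3 := t2_S2 m i j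
      rw [if_neg hij, List.count_eq_zero] at h3
      exact h3 (List.mem_cons_of_mem _ h)) []
    have e3 : (N2 m).S j = 8 + 6 * j := rfl
    rw [e3] at e2
    unfold TB
    rw [e2]
    simp
  have nS2 : ∀ j ≤ m, ∀ c, c ≠ 3 → c ≠ 4 → nn w c (8 + 6 * j) =
      (hd m).count c + ((TA τ m).count c +
        ((pre τ j).flatMap (fun i => (N2 m).S i :: T2 m i)).count c) := by
    intro j hj c h3 h4
    unfold nn
    rw [pS2 j hj, List.count_append, List.count_cons, List.count_append, List.count_cons]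
    have e3 : (3 == c) = false := by
      simp only [beq_eq_false_iff_ne]
      omega
    have e4 : (4 == c) = false := by
      simp only [beq_eq_false_iff_ne]
      omega
    rw [e3, e4]
    simp
  have pm1 : pre w (6 + 6 * (m + 1)) = [0, 1, 2, 0] ++ B1 m ++ [6 + 6 * m] := by
    have e1 : w = ([0, 1, 2, 0] ++ B1 m ++ [6 + 6 * m]) ++ (6 + 6 * (m + 1)) :: ([1] ++
        3 :: (TA τ m ++ 4 :: TB τ m)) := by
      rw [we]
      unfold hd
      simp
    rw [e1]
    apply MWK.pre_split
    rw [List.mem_append, not_or, List.mem_append, not_or]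
    refine ⟨⟨by simp; omega, ?_⟩, ?_⟩
    · rw [← List.count_eq_zero, b1_L]
      simp
    · rw [List.mem_singleton]
      omega
  refine ⟨?_, ?_, ?_⟩
  · constructor
    · exact wSm
    · exact w4
    · show nn w 4 (5 + 6 * m) = 0
      unfold nn
      rw [pSm, P4]
    · show 2 ≤ w.count (6 + 6 * m)
      rw [wL m (by omega)]
    · show 2 ≤ w.count (6 + 6 * (m + 1))
      rw [wL (m + 1) (by omega)]
    · show nn w (6 + 6 * m) (5 + 6 * m) = 1
      unfold nn
      rw [pSm, PL]
    · show nn w (6 + 6 * (m + 1)) (5 + 6 * m) = 1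
      unfold nn
      rw [pSm, PL1]
    · show nn w (6 + 6 * m) 4 = w.count (6 + 6 * m)
      rw [c4 _ (by omega), hdL m (by omega), taL m (by omega), wL m (by omega)]
    · show nn w (6 + 6 * (m + 1)) 4 = w.count (6 + 6 * (m + 1))
      rw [c4 _ (by omega), hdL (m + 1) (by omega), taL (m + 1) (by omega), wL (m + 1) (by omega)]
    · intro i hi
      show 2 ≤ w.count (9 + 6 * i)
      rw [wL2 i hi]
    · intro i hi
      show nn w (9 + 6 * i) (5 + 6 * m) = 0
      unfold nn
      rw [pSm, PL2 i hi]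
    · intro i hi
      show nn w (9 + 6 * i) 4 = 1
      rw [c4 _ (by omega), hd2 _ (by omega), taL2 i hi]
    · intro i hi
      show 2 ≤ w.count (10 + 6 * i)
      rw [wC2 i hi]
    · intro i hi
      show nn w (10 + 6 * i) (5 + 6 * m) = 0
      unfold nn
      rw [pSm, PC2 i hi]
    · intro i hi
      show nn w (10 + 6 * i) 4 = w.count (10 + 6 * i)
      rw [c4 _ (by omega), hd2 _ (by omega), taC2 i hi, wC2 i hi]
    · intro i hi
      show nn w (6 + 6 * m) (9 + 6 * i) = w.count (6 + 6 * m)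
      have hb : (B2 m i).count (6 + 6 * m) = 0 := b2_o m _ _ (by omega)
      rw [nL2 i hi _ (by omega), PL, hb, if_pos rfl, wL m (by omega)]
    · intro i hi
      show nn w (6 + 6 * (m + 1)) (9 + 6 * i) = 1
      have hb : (B2 m i).count (6 + 6 * (m + 1)) = 0 := b2_o m _ _ (by omega)
      rw [nL2 i hi _ (by omega), PL1, hb, if_neg (by omega)]
    · intro i hi j hj
      show nn w (10 + 6 * i) (9 + 6 * j) = 0
      rw [nL2 j (by omega) _ (by omega), PC2 i hi, b2_C, if_neg (by omega), if_neg (by omega)]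
    · intro i hi j hj hj'
      show nn w (10 + 6 * i) (9 + 6 * j) = w.count (10 + 6 * i)
      rw [nL2 j (by omega) _ (by omega), PC2 i hi, b2_C, if_neg (by omega), if_pos (by omega),
        wC2 i hi]
  · constructor
    · intro i hi
      exact wS2 i hi
    · intro i _
      show nn w (8 + 6 * i) 4 = 0
      rw [c4 _ (by omega), hd2 _ (by omega), taS2 i]
    · intro i j hi hj hij
      show nn w (8 + 6 * j) (8 + 6 * i) = 0
      rw [nS2 i hi _ (by omega) (by omega), hd2 _ (by omega), taS2 j,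
        fm_k _ _ j 1 (pre τ i) (fun k _ => t2_S2 m k j),
        List.count_eq_zero.2 (MWK.pre_asymm hij)]
    · intro i hi
      show nn w (9 + 6 * i) (8 + 6 * i) = 1
      rw [nS2 i hi _ (by omega) (by omega), hd2 _ (by omega), taL2 i (by omega),
        fm_k _ _ (min i m) 1 (pre τ i) (fun k hk => t2_L2 m k i (hmem i k hk) (by omega)),
        Nat.min_eq_left hi, List.count_eq_zero.2 (MWK.not_mem_pre τ i)]
    · intro i j hi hj hij
      show nn w (9 + 6 * i) (8 + 6 * j) = w.count (9 + 6 * i)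
      have hc1 : (pre τ j).count i = 1 := by
        apply List.count_eq_one_of_mem _ hij
        exact ht.1.sublist (MWK.pre_prefix τ j).sublist
      rw [nS2 j hj _ (by omega) (by omega), hd2 _ (by omega), taL2 i (by omega),
        fm_k _ _ (min i m) 1 (pre τ j) (fun k hk => t2_L2 m k i (hmem j k hk) (by omega)),
        Nat.min_eq_left hi, hc1, wL2 i (by omega)]
  · show nn w (6 + 6 * m) (6 + 6 * (m + 1)) = 1
    unfold nn
    rw [pm1, List.count_append, List.count_append, b1_L]
    have : ([0, 1, 2, 0] : List ℕ).count (6 + 6 * m) = 0 := by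
      rw [List.count_eq_zero]
      simp
      omega
    rw [this]
    simp

end Pool.Agent.MWGN.H50
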